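import Pool.Agent.N311.SH.Stm

/-!
# Project SH (helper311), S_LIN: straightening a holomorphic germ (helper413)

`k` is the composition of a homeomorphism `m` which is `a⁻¹ q` near `0` (`q` a local inverse of `φ`,
`a = q'(0)`) and the identity outside a small disc, and of the radial map
`z ↦ z * exp (τ(|z|) Log a)`.
-/

set_option autoImplicit false

namespace Pool.Agent.N413.SH

open Set Metric Filter Topology
open scoped NNReal

/-! ### the radial map -/

/-- the exponent: `min (log (ε / |z|)) L` cut off at zero, divided by `L` -/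
noncomputable def tau (ε L : ℝ) (z : ℂ) : ℝ :=
  max 0 (Real.log (ε / max ‖z‖ (ε * Real.exp (-L))) / L)

/-- the radial map -/
noncomputable def rad (ε L : ℝ) (c : ℂ) (z : ℂ) : ℂ := z * Complex.exp ((tau ε L z : ℝ) * c)

theorem tau_cont {ε : ℝ} (L : ℝ) (hε : 0 < ε) : Continuous (tau ε L) := by
  unfold tau
  have h1 : Continuous fun z : ℂ => max ‖z‖ (ε * Real.exp (-L)) :=
    continuous_norm.max continuous_const
  have h2 : ∀ z : ℂ, 0 < max ‖z‖ (ε * Real.exp (-L)) := fun z =>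
    lt_max_of_lt_right (mul_pos hε (Real.exp_pos _))
  have h3 : Continuous fun z : ℂ => ε / max ‖z‖ (ε * Real.exp (-L)) :=
    continuous_const.div h1 fun z => (h2 z).ne'
  exact continuous_const.max ((h3.log fun z => (div_pos hε (h2 z)).ne').div_const L)

theorem rad_cont {ε : ℝ} (L : ℝ) (c : ℂ) (hε : 0 < ε) : Continuous (rad ε L c) := by
  unfold rad
  exact continuous_id.mul (Complex.continuous_exp.comp
    ((Complex.continuous_ofReal.comp (tau_cont L hε)).mul continuous_const))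

theorem tau_eq {ε L : ℝ} (hε : 0 < ε) (_hL : 0 < L) {z : ℂ} (hz : z ≠ 0) :
    tau ε L z = max 0 (min (Real.log (ε / ‖z‖)) L / L) := by
  unfold tau
  have hz' : 0 < ‖z‖ := norm_pos_iff.2 hz
  congr 2
  rcases le_total ‖z‖ (ε * Real.exp (-L)) with h | h
  · rw [max_eq_right h]
    have h1 : L ≤ Real.log (ε / ‖z‖) := by
      rw [Real.le_log_iff_exp_le (by positivity), le_div_iff₀ hz']
      have h2 : Real.exp L * ‖z‖ ≤ Real.exp L * (ε * Real.exp (-L)) :=
        mul_le_mul_of_nonneg_left h (Real.exp_pos _).le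
      have h3 : Real.exp L * (ε * Real.exp (-L)) = ε := by
        rw [mul_left_comm, ← Real.exp_add, add_neg_cancel, Real.exp_zero, mul_one]
      linarith
    rw [min_eq_right h1]
    have h4 : ε / (ε * Real.exp (-L)) = Real.exp L := by
      rw [Real.exp_neg]
      field_simp
    rw [h4, Real.log_exp]
  · rw [max_eq_left h]
    have h1 : Real.log (ε / ‖z‖) ≤ L := by
      rw [Real.log_le_iff_le_exp (by positivity), div_le_iff₀ hz']
      have h2 : Real.exp L * (ε * Real.exp (-L)) ≤ Real.exp L * ‖z‖ :=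
        mul_le_mul_of_nonneg_left h (Real.exp_pos _).le
      have h3 : Real.exp L * (ε * Real.exp (-L)) = ε := by
        rw [mul_left_comm, ← Real.exp_add, add_neg_cancel, Real.exp_zero, mul_one]
      linarith
    rw [min_eq_left h1]

theorem rad_zero (ε L : ℝ) (c : ℂ) : rad ε L c 0 = 0 := zero_mul _

theorem rad_ne {ε L : ℝ} {c z : ℂ} (hz : z ≠ 0) : rad ε L c z ≠ 0 :=
  mul_ne_zero hz (Complex.exp_ne_zero _)

theorem rad_norm (ε L : ℝ) (c z : ℂ) : ‖rad ε L c z‖ = ‖z‖ * Real.exp (tau ε L z * c.re) := by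
  unfold rad
  rw [norm_mul, Complex.norm_exp]
  congr 2
  simp

theorem clamp (x L r : ℝ) (hL : 0 < L) (hr : 0 < L - r) :
    max 0 (min (x - max 0 (min x L / L) * r) (L - r) / (L - r)) = max 0 (min x L / L) := by
  rcases le_total x 0 with h | h
  · have h1 : min x L / L ≤ 0 := div_nonpos_of_nonpos_of_nonneg ((min_le_left _ _).trans h) hL.le
    rw [max_eq_left h1, zero_mul, sub_zero]
    exact max_eq_left (div_nonpos_of_nonpos_of_nonneg ((min_le_left _ _).trans h) hr.le)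
  · rcases le_total x L with h2 | h2
    · rw [min_eq_left h2, max_eq_right (div_nonneg h hL.le)]
      have h3 : x - x / L * r = x / L * (L - r) := by
        field_simp
      rw [h3]
      have h4 : x / L * (L - r) ≤ L - r := by
        have : x / L ≤ 1 := (div_le_one hL).2 h2
        nlinarith
      rw [min_eq_left h4, mul_div_assoc, div_self hr.ne', mul_one]
      exact max_eq_right (div_nonneg h hL.le)
    · rw [min_eq_right h2, div_self hL.ne', max_eq_right zero_le_one, one_mul,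
        min_eq_right (by linarith), div_self hr.ne', max_eq_right zero_le_one]

theorem tau_rad {ε L : ℝ} {c : ℂ} (hε : 0 < ε) (hL : 0 < L) (hr : 0 < L - c.re) {z : ℂ}
    (hz : z ≠ 0) : tau ε (L - c.re) (rad ε L c z) = tau ε L z := by
  have hz' : 0 < ‖z‖ := norm_pos_iff.2 hz
  rw [tau_eq hε hr (rad_ne hz), rad_norm, tau_eq hε hL hz]
  have h1 : Real.log (ε / (‖z‖ * Real.exp (max 0 (min (Real.log (ε / ‖z‖)) L / L) * c.re))) =
      Real.log (ε / ‖z‖) - max 0 (min (Real.log (ε / ‖z‖)) L / L) * c.re := by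
    rw [← div_div, Real.log_div (by positivity) (Real.exp_pos _).ne', Real.log_exp]
  rw [h1]
  exact clamp _ _ _ hL hr

theorem rad_inv {ε L : ℝ} {c : ℂ} (hε : 0 < ε) (hL : 0 < L) (hr : 0 < L - c.re) (z : ℂ) :
    rad ε (L - c.re) (-c) (rad ε L c z) = z := by
  by_cases hz : z = 0
  · rw [hz, rad_zero, rad_zero]
  · have h1 := tau_rad hε hL hr hz
    show rad ε L c z * Complex.exp ((tau ε (L - c.re) (rad ε L c z) : ℝ) * (-c)) = z
    rw [h1]
    show z * Complex.exp _ * Complex.exp _ = z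
    rw [mul_assoc, ← Complex.exp_add]
    simp

/-- the radial homeomorphism -/
noncomputable def radH (ε L : ℝ) (c : ℂ) (hε : 0 < ε) (hL : 0 < L) (hr : 0 < L - c.re) :
    ℂ ≃ₜ ℂ where
  toFun := rad ε L c
  invFun := rad ε (L - c.re) (-c)
  left_inv := rad_inv hε hL hr
  right_inv z := by
    have h1 := rad_inv (ε := ε) (L := L - c.re) (c := -c) hε hr (by simpa using hL) z
    have h2 : L - c.re - (-c).re = L := by simp
    rw [h2, neg_neg] at h1
    exact h1
  continuous_toFun := rad_cont L c hε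
  continuous_invFun := rad_cont _ _ hε

theorem rad_out {ε L : ℝ} (c : ℂ) (hε : 0 < ε) (hL : 0 < L) {z : ℂ} (hz : ε ≤ ‖z‖) :
    rad ε L c z = z := by
  have hz' : z ≠ 0 := norm_pos_iff.1 (hε.trans_le hz)
  have h1 : Real.log (ε / ‖z‖) ≤ 0 := by
    refine Real.log_nonpos (by positivity) ?_
    rw [div_le_one (hε.trans_le hz)]
    exact hz
  have h2 : tau ε L z = 0 := by
    rw [tau_eq hε hL hz']
    exact max_eq_left (div_nonpos_of_nonpos_of_nonneg ((min_le_left _ _).trans h1) hL.le)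
  unfold rad
  rw [h2]
  simp

theorem rad_in {ε L : ℝ} (c : ℂ) (hε : 0 < ε) (hL : 0 < L) {z : ℂ}
    (hz : ‖z‖ ≤ ε * Real.exp (-L)) : rad ε L c z = z * Complex.exp c := by
  have h2 : tau ε L z = 1 := by
    unfold tau
    have h4 : ε / (ε * Real.exp (-L)) = Real.exp L := by
      rw [Real.exp_neg]
      field_simp
    rw [max_eq_right hz, h4, Real.log_exp, div_self hL.ne']
    exact max_eq_right zero_le_one
  unfold rad
  rw [h2]
  simp

/-! ### the local map -/

/-- the cut off function -/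
noncomputable def chi (r : ℝ) (z : ℂ) : ℝ := max 0 (min 1 (2 - 2 * ‖z‖ / r))

theorem chi_nonneg (r : ℝ) (z : ℂ) : 0 ≤ chi r z := le_max_left _ _

theorem chi_le (r : ℝ) (z : ℂ) : chi r z ≤ 1 := max_le zero_le_one (min_le_left _ _)

theorem chi_le' {r : ℝ} (hr : 0 < r) {z : ℂ} (hz : ‖z‖ ≤ r) :
    chi r z ≤ 2 / r * (r - ‖z‖) := by
  refine max_le (by have := sub_nonneg.2 hz; positivity) ((min_le_right _ _).trans (le_of_eq ?_))
  field_simp

theorem chi_one {r : ℝ} (hr : 0 < r) {z : ℂ} (hz : ‖z‖ ≤ r / 2) : chi r z = 1 := by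
  unfold chi
  have h1 : 1 ≤ 2 - 2 * ‖z‖ / r := by
    have : 2 * ‖z‖ / r ≤ 1 := by
      rw [div_le_one hr]
      linarith
    linarith
  rw [min_eq_left h1]
  exact max_eq_right zero_le_one

theorem chi_lip {r : ℝ} (hr : 0 < r) (x y : ℂ) : |chi r x - chi r y| ≤ 2 / r * ‖x - y‖ := by
  have h1 : |max 0 (min 1 (2 - 2 * ‖x‖ / r)) - max 0 (min 1 (2 - 2 * ‖y‖ / r))| ≤
      |(2 - 2 * ‖x‖ / r) - (2 - 2 * ‖y‖ / r)| := by
    refine (abs_max_sub_max_le_max _ _ _ _).trans ?_
    rw [sub_self, abs_zero]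
    refine max_le (abs_nonneg _) ?_
    refine (abs_min_sub_min_le_max _ _ _ _).trans ?_
    rw [sub_self, abs_zero]
    exact max_le (abs_nonneg _) le_rfl
  refine h1.trans ?_
  have h2 : (2 - 2 * ‖x‖ / r) - (2 - 2 * ‖y‖ / r) = 2 / r * (‖y‖ - ‖x‖) := by ring
  rw [h2, abs_mul, abs_of_pos (by positivity)]
  refine mul_le_mul_of_nonneg_left ?_ (by positivity)
  rw [abs_sub_comm]
  exact abs_norm_sub_norm_le x y

theorem local_homeo {g : ℂ → ℂ} (hg : HasStrictDerivAt g 1 0) (hg0 : g 0 = 0) {ρ : ℝ}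
    (hρ : 0 < ρ) : ∃ m : ℂ ≃ₜ ℂ, (∀ z, ρ ≤ ‖z‖ → m z = z) ∧
      ∃ δ : ℝ, 0 < δ ∧ ∀ z, ‖z‖ ≤ δ → m z = g z := by
  obtain ⟨s, hs, hap⟩ := hg.hasStrictFDerivAt.approximates_deriv_on_nhds
    (c := 1 / 6) (Or.inr (by norm_num))
  obtain ⟨r0, hr0, hb⟩ := Metric.nhds_basis_closedBall.mem_iff.1 hs
  set r := min r0 ρ with hrdef
  have hr : 0 < r := lt_min hr0 hρ
  have hG : ∀ x y : ℂ, ‖x‖ ≤ r → ‖y‖ ≤ r → ‖(g x - x) - (g y - y)‖ ≤ 1 / 6 * ‖x - y‖ := by
    intro x y hx hy
    have h1 := hap x (hb (by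
      rw [mem_closedBall, dist_zero_right]
      exact hx.trans (min_le_left _ _))) y (hb (by
      rw [mem_closedBall, dist_zero_right]
      exact hy.trans (min_le_left _ _)))
    have e1 : g x - x - (g y - y) = g x - g y - (x - y) := by ring
    rw [e1]
    simpa using h1
  have hG0 : ∀ x : ℂ, ‖x‖ ≤ r → ‖g x - x‖ ≤ 1 / 6 * ‖x‖ := by
    intro x hx
    have h1 := hG x 0 hx (by rw [norm_zero]; exact hr.le)
    simpa [hg0] using h1
  set H : ℂ → ℂ := fun z => if ‖z‖ ≤ r then (chi r z : ℂ) * (g z - z) else 0 with hH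
  have hin : ∀ z, ‖z‖ ≤ r → H z = (chi r z : ℂ) * (g z - z) := fun z hz => if_pos hz
  have hout : ∀ z, ¬ ‖z‖ ≤ r → H z = 0 := fun z hz => if_neg hz
  have hHb : ∀ x y : ℂ, ‖x‖ ≤ r → ¬ ‖y‖ ≤ r → ‖H x‖ ≤ 1 / 2 * ‖x - y‖ := by
    intro x y hx hy
    push Not at hy
    rw [hin x hx, norm_mul, Complex.norm_real, Real.norm_eq_abs, abs_of_nonneg (chi_nonneg _ _)]
    have h1 := chi_le' hr hx
    have h2 := hG0 x hx
    have h3 : ‖y‖ - ‖x‖ ≤ ‖x - y‖ := by
      rw [norm_sub_rev]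
      exact norm_sub_norm_le y x
    have h4 : chi r x * ‖g x - x‖ ≤ (2 / r * (r - ‖x‖)) * (1 / 6 * r) := by
      have h5 : ‖g x - x‖ ≤ 1 / 6 * r := h2.trans (by linarith)
      have h6 : 0 ≤ 2 / r * (r - ‖x‖) := (chi_nonneg _ _).trans h1
      exact mul_le_mul h1 h5 (norm_nonneg _) h6
    have h7 : (2 / r * (r - ‖x‖)) * (1 / 6 * r) = 1 / 3 * (r - ‖x‖) := by
      field_simp
      ring
    rw [h7] at h4
    linarith [norm_nonneg (x - y)]
  have hlip : ∀ x y : ℂ, ‖H x - H y‖ ≤ 1 / 2 * ‖x - y‖ := by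
    intro x y
    by_cases hx : ‖x‖ ≤ r
    · by_cases hy : ‖y‖ ≤ r
      · rw [hin x hx, hin y hy]
        have e1 : (chi r x : ℂ) * (g x - x) - (chi r y : ℂ) * (g y - y) =
            ((chi r x - chi r y : ℝ) : ℂ) * (g x - x) +
              (chi r y : ℂ) * ((g x - x) - (g y - y)) := by
          push_cast
          ring
        rw [e1]
        refine (norm_add_le _ _).trans ?_
        rw [norm_mul, norm_mul, Complex.norm_real, Complex.norm_real, Real.norm_eq_abs,
          Real.norm_eq_abs, abs_of_nonneg (chi_nonneg r y)]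
        have h1 := chi_lip hr x y
        have h2 : ‖g x - x‖ ≤ 1 / 6 * r := (hG0 x hx).trans (by linarith)
        have h3 := hG x y hx hy
        have h4 : |chi r x - chi r y| * ‖g x - x‖ ≤ (2 / r * ‖x - y‖) * (1 / 6 * r) :=
          mul_le_mul h1 h2 (norm_nonneg _) (by positivity)
        have h5 : (2 / r * ‖x - y‖) * (1 / 6 * r) = 1 / 3 * ‖x - y‖ := by
          field_simp
          ring
        have h6 : chi r y * ‖g x - x - (g y - y)‖ ≤ 1 * (1 / 6 * ‖x - y‖) :=
          mul_le_mul (chi_le _ _) h3 (norm_nonneg _) zero_le_one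
        rw [h5] at h4
        linarith
      · rw [hout y hy, sub_zero]
        exact hHb x y hx hy
    · by_cases hy : ‖y‖ ≤ r
      · rw [hout x hx, zero_sub, norm_neg, norm_sub_rev]
        exact hHb y x hy hx
      · rw [hout x hx, hout y hy, sub_zero, norm_zero]
        positivity
  have happ : ApproximatesLinearOn (fun z => z + H z)
      ((ContinuousLinearEquiv.refl ℂ ℂ : ℂ ≃L[ℂ] ℂ) : ℂ →L[ℂ] ℂ) univ (1 / 2) := by
    intro x _ y _
    have e1 : x + H x - (y + H y) -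
        ((ContinuousLinearEquiv.refl ℂ ℂ : ℂ ≃L[ℂ] ℂ) : ℂ →L[ℂ] ℂ) (x - y) = H x - H y := by
      simp only [ContinuousLinearEquiv.coe_refl, ContinuousLinearMap.coe_id', id_eq]
      ring
    show ‖x + H x - (y + H y) - _‖ ≤ _
    rw [e1]
    simpa using hlip x y
  let m : ℂ ≃ₜ ℂ := happ.toHomeomorph _ (Or.inr (by
    have h1 : ‖(((ContinuousLinearEquiv.refl ℂ ℂ : ℂ ≃L[ℂ] ℂ).symm : ℂ ≃L[ℂ] ℂ) : ℂ →L[ℂ] ℂ)‖₊ =
        1 := by
      simp
    rw [h1, inv_one]
    exact NNReal.half_lt_self one_ne_zero))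
  have hm : ∀ z, m z = z + H z := fun z => rfl
  refine ⟨m, fun z hz => ?_, r / 2, half_pos hr, fun z hz => ?_⟩
  · rw [hm]
    rcases (min_le_right r0 ρ).trans hz |>.eq_or_lt with h | h
    · have h1 : chi r z = 0 := by
        refine le_antisymm ?_ (chi_nonneg _ _)
        have h2 := chi_le' hr (z := z) (le_of_eq h.symm)
        rw [← h, hrdef, sub_self, mul_zero] at h2
        exact h2
      rw [hin z (le_of_eq h.symm), h1, Complex.ofReal_zero, zero_mul, add_zero]
    · rw [hout z (not_le.2 h), add_zero]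
  · rw [hm, hin z (hz.trans (by linarith)), chi_one hr hz]
    simp

/-- **LIN.** -/
theorem lin : Pool.Agent.N311.SH.S_LIN := by
  intro φ hφ h0 hd ε hε
  have hst : HasStrictDerivAt φ (deriv φ 0) 0 := hφ.hasStrictDerivAt
  set a : ℂ := (deriv φ 0)⁻¹ with ha
  have ha0 : a ≠ 0 := inv_ne_zero hd
  let q : ℂ → ℂ := hst.localInverse φ (deriv φ 0) 0 hd
  have hq : HasStrictDerivAt q a 0 := by
    have h1 := hst.to_localInverse hd
    rw [h0] at h1
    exact h1
  have hqi : ∀ᶠ z in 𝓝 (0 : ℂ), φ (q z) = z := by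
    have h1 := hst.eventually_right_inverse hd
    rw [h0] at h1
    exact h1
  have hq0 : q 0 = 0 := by
    have h1 := hst.eventually_left_inverse hd
    have h2 := h1.self_of_nhds
    rw [h0] at h2
    exact h2
  set c : ℂ := Complex.log a with hc
  have hexp : Complex.exp c = a := Complex.exp_log ha0
  set L : ℝ := |c.re| + 1 with hL
  have hLpos : 0 < L := by positivity
  have hLc : 0 < L - c.re := by
    have := le_abs_self c.re
    rw [hL]
    linarith
  have hρ : 0 < ε * Real.exp (-L) := by positivity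
  have hρε : ε * Real.exp (-L) ≤ ε := by
    have : Real.exp (-L) ≤ 1 := Real.exp_le_one_iff.2 (by linarith)
    nlinarith
  obtain ⟨m, hm1, δ, hδ, hm2⟩ := local_homeo (g := fun z => a⁻¹ * q z)
    (by simpa [inv_mul_cancel₀ ha0] using hq.const_mul a⁻¹) (by rw [hq0, mul_zero]) hρ
  have hm0 : m 0 = 0 := by
    rw [hm2 0 (by rw [norm_zero]; exact hδ.le)]
    show a⁻¹ * q 0 = 0
    rw [hq0, mul_zero]
  refine ⟨m.trans (radH ε L c hε hLpos hLc), fun z hz => ?_, ?_, ?_⟩
  · show rad ε L c (m z) = z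
    rw [hm1 z (hρε.trans hz), rad_out c hε hLpos hz]
  · show rad ε L c (m 0) = 0
    rw [hm0, rad_zero]
  · have h1 : ∀ᶠ z in 𝓝 (0 : ℂ), ‖m z‖ ≤ ε * Real.exp (-L) := by
      have h2 : Tendsto (fun z => ‖m z‖) (𝓝 (0 : ℂ)) (𝓝 ‖m 0‖) :=
        (m.continuous.norm).tendsto 0
      rw [hm0, norm_zero] at h2
      exact (h2.eventually (gt_mem_nhds hρ)).mono fun z hz => le_of_lt hz
    have h3 : ∀ᶠ z in 𝓝 (0 : ℂ), ‖z‖ ≤ δ := by
      have h2 : Tendsto (fun z : ℂ => ‖z‖) (𝓝 (0 : ℂ)) (𝓝 ‖(0 : ℂ)‖) := continuous_norm.tendsto 0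
      rw [norm_zero] at h2
      exact (h2.eventually (gt_mem_nhds hδ)).mono fun z hz => le_of_lt hz
    obtain ⟨δ', hδ', hb⟩ := Metric.eventually_nhds_iff.1 (h1.and (h3.and hqi))
    refine ⟨δ', hδ', fun z hz => ?_⟩
    obtain ⟨h4, h5, h6⟩ := hb (by rwa [dist_zero_right])
    show φ (rad ε L c (m z)) = z
    rw [rad_in c hε hLpos h4, hexp, hm2 z h5]
    have e1 : a⁻¹ * q z * a = q z := by
      field_simp
    show φ (a⁻¹ * q z * a) = z
    rw [e1, h6]

end Pool.Agent.N413.SH
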